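import Pool.Agent.H26.U.Stmts

/-!
# Project U: module CAR

Induction by Kronecker products: from a flat CAR system with `K` modes and the seed one gets a flat
CAR system with `K + 1` modes.
-/

namespace Pool.Agent.H22.U

open Pool.Agent.H26.U Matrix
open scoped Kronecker

/-- the trivial system -/
def carZero : FlatCAR 0 (Fin 1) where
  φ := fun j => j.elim0
  G := 0
  A := 1
  φ_norm := fun j => j.elim0
  G_diag := fun a => rfl
  G_norm := fun a b h => absurd (Subsingleton.elim a b) h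
  A_norm := fun a b => by
    rw [Subsingleton.elim a b]; simp
  G_herm := by simp
  A_herm := by simp
  φφ := fun j => j.elim0
  φφH := fun j => j.elim0
  GG := by simp
  AA := by simp
  φG := fun j => j.elim0
  φA := fun j => j.elim0
  GA := by simp

variable {ι : Type} [Fintype ι] [DecidableEq ι] {K : ℕ}

theorem kk (a b : Matrix ι ι ℂ) (c d : Matrix (Fin 8) (Fin 8) ℂ) :
    (a ⊗ₖ c) * (b ⊗ₖ d) = (a * b) ⊗ₖ (c * d) := (Matrix.mul_kronecker_mul a b c d).symm

/-- the modes of the new system -/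
def newφ (F : FlatCAR K ι) (φ A : Matrix (Fin 8) (Fin 8) ℂ) :
    Fin (K + 1) → Matrix (ι × Fin 8) (ι × Fin 8) ℂ :=
  Fin.cases (F.A ⊗ₖ φ) (fun j => F.φ j ⊗ₖ A)

theorem newφ_zero (F : FlatCAR K ι) (φ A : Matrix (Fin 8) (Fin 8) ℂ) :
    newφ F φ A 0 = F.A ⊗ₖ φ := rfl

theorem newφ_succ (F : FlatCAR K ι) (φ A : Matrix (Fin 8) (Fin 8) ℂ) (j : Fin K) :
    newφ F φ A j.succ = F.φ j ⊗ₖ A := rfl

theorem smul_one_kron (x y : ℂ) :
    (x • (1 : Matrix ι ι ℂ)) ⊗ₖ (y • (1 : Matrix (Fin 8) (Fin 8) ℂ)) =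
      (x * y) • (1 : Matrix (ι × Fin 8) (ι × Fin 8) ℂ) := by
  rw [Matrix.smul_kronecker, Matrix.kronecker_smul, Matrix.one_kronecker_one, smul_smul]

/-- the induction step -/
def carStep (F : FlatCAR K ι) {φ A B C : Matrix (Fin 8) (Fin 8) ℂ} (S : IsSeed φ A B C) :
    FlatCAR (K + 1) (ι × Fin 8) where
  φ := newφ F φ A
  G := F.G ⊗ₖ A + (1 : Matrix ι ι ℂ) ⊗ₖ B
  A := F.A ⊗ₖ C
  φ_norm := by
    intro j a b
    refine Fin.cases ?_ (fun j => ?_) j
    · rw [newφ_zero, Matrix.kronecker_apply, norm_mul, F.A_norm, S.φ_norm, one_mul]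
    · rw [newφ_succ, Matrix.kronecker_apply, norm_mul, F.φ_norm, S.A_norm, one_mul]
  G_diag := by
    intro a
    simp [F.G_diag, S.B_diag]
  G_norm := by
    intro a b hab
    rw [Matrix.add_apply, Matrix.kronecker_apply, Matrix.kronecker_apply]
    by_cases h : a.1 = b.1
    · have h2 : a.2 ≠ b.2 := fun h2 => hab (Prod.ext h h2)
      rw [h, F.G_diag, Matrix.one_apply_eq, zero_mul, zero_add, one_mul]
      exact S.B_norm _ _ h2
    · rw [Matrix.one_apply_ne h, zero_mul, add_zero, norm_mul, F.G_norm _ _ h, S.A_norm, one_mul]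
  A_norm := by
    intro a b
    rw [Matrix.kronecker_apply, norm_mul, F.A_norm, S.C_norm, one_mul]
  G_herm := by
    rw [Matrix.conjTranspose_add, Matrix.conjTranspose_kronecker, Matrix.conjTranspose_kronecker,
      F.G_herm, S.A_herm, S.B_herm, Matrix.conjTranspose_one]
  A_herm := by
    rw [Matrix.conjTranspose_kronecker, F.A_herm, S.C_herm]
  φφ := by
    intro i j
    refine Fin.cases ?_ (fun i => ?_) i <;> refine Fin.cases ?_ (fun j => ?_) j
    · rw [newφ_zero, kk, S.φφ, Matrix.kronecker_zero, add_zero]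
    · rw [newφ_zero, newφ_succ, kk, kk, S.Aφ, ← Matrix.add_kronecker, add_comm, F.φA,
        Matrix.zero_kronecker]
    · rw [newφ_zero, newφ_succ, kk, kk, S.Aφ, ← Matrix.add_kronecker, F.φA,
        Matrix.zero_kronecker]
    · rw [newφ_succ, newφ_succ, kk, kk, ← Matrix.add_kronecker, F.φφ, Matrix.zero_kronecker]
  φφH := by
    have hAφ : A * φᴴ = φᴴ * A := by
      have := congrArg Matrix.conjTranspose S.Aφ
      rw [Matrix.conjTranspose_mul, Matrix.conjTranspose_mul, S.A_herm] at this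
      exact this.symm
    have hφA : ∀ j, (F.φ j)ᴴ * F.A + F.A * (F.φ j)ᴴ = 0 := by
      intro j
      have := congrArg Matrix.conjTranspose (F.φA j)
      rw [Matrix.conjTranspose_add, Matrix.conjTranspose_mul, Matrix.conjTranspose_mul, F.A_herm,
        Matrix.conjTranspose_zero, add_comm] at this
      exact this
    intro i j
    refine Fin.cases ?_ (fun i => ?_) i <;> refine Fin.cases ?_ (fun j => ?_) j
    · rw [if_pos rfl, newφ_zero, Matrix.conjTranspose_kronecker, F.A_herm, kk, kk,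
        ← Matrix.kronecker_add, S.φφH, F.AA, smul_one_kron]
      congr 1
      rw [Fintype.card_prod, Fintype.card_fin]
      push_cast
      ring
    · rw [if_neg (Fin.succ_ne_zero j).symm, newφ_zero, newφ_succ, Matrix.conjTranspose_kronecker,
        S.A_herm, kk, kk, S.Aφ, ← Matrix.add_kronecker, add_comm, hφA, Matrix.zero_kronecker]
    · rw [if_neg (Fin.succ_ne_zero i), newφ_zero, newφ_succ, Matrix.conjTranspose_kronecker,
        F.A_herm, kk, kk, hAφ, ← Matrix.add_kronecker, F.φA, Matrix.zero_kronecker]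
    · rw [newφ_succ, newφ_succ, Matrix.conjTranspose_kronecker, S.A_herm, kk, kk,
        ← Matrix.add_kronecker, F.φφH, S.AA]
      by_cases h : i = j
      · rw [if_pos h, if_pos (by rw [h]), smul_one_kron]
        congr 1
        rw [Fintype.card_prod, Fintype.card_fin]
        push_cast
        ring
      · rw [if_neg h, if_neg (fun h' => h (Fin.succ_injective _ h')), Matrix.zero_kronecker]
  GG := by
    rw [add_mul, mul_add, mul_add, kk, kk, kk, kk, F.GG, S.AA, S.BB, one_mul, mul_one, mul_one,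
      smul_one_kron]
    have h1 : (1 : Matrix ι ι ℂ) ⊗ₖ ((7 : ℂ) • (1 : Matrix (Fin 8) (Fin 8) ℂ)) =
        (7 : ℂ) • (1 : Matrix (ι × Fin 8) (ι × Fin 8) ℂ) := by
      rw [Matrix.kronecker_smul, Matrix.one_kronecker_one]
    have h2 : F.G ⊗ₖ (A * B) + F.G ⊗ₖ (B * A) = 0 := by
      rw [← Matrix.kronecker_add, S.AB, Matrix.kronecker_zero]
    rw [h1]
    have h3 : (((Fintype.card ι : ℂ) - 1) * 8) • (1 : Matrix (ι × Fin 8) (ι × Fin 8) ℂ) +
        (7 : ℂ) • (1 : Matrix (ι × Fin 8) (ι × Fin 8) ℂ) =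
        ((Fintype.card (ι × Fin 8) : ℂ) - 1) • (1 : Matrix (ι × Fin 8) (ι × Fin 8) ℂ) := by
      rw [← add_smul]
      congr 1
      rw [Fintype.card_prod, Fintype.card_fin]
      push_cast
      ring
    rw [← h3]
    calc _ = ((((Fintype.card ι : ℂ) - 1) * 8) • (1 : Matrix (ι × Fin 8) (ι × Fin 8) ℂ) +
        (7 : ℂ) • (1 : Matrix (ι × Fin 8) (ι × Fin 8) ℂ)) +
        (F.G ⊗ₖ (A * B) + F.G ⊗ₖ (B * A)) := by abel
      _ = _ := by rw [h2, add_zero]
  AA := by
    rw [kk, F.AA, S.CC, smul_one_kron]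
    congr 1
    rw [Fintype.card_prod, Fintype.card_fin]
    push_cast
    ring
  φG := by
    intro j
    refine Fin.cases ?_ (fun j => ?_) j
    · rw [newφ_zero, mul_add, add_mul, kk, kk, kk, kk, S.Aφ, mul_one, one_mul]
      have h1 : (F.A * F.G) ⊗ₖ (φ * A) + (F.G * F.A) ⊗ₖ (φ * A) = 0 := by
        rw [← Matrix.add_kronecker, add_comm, F.GA, Matrix.zero_kronecker]
      have h2 : F.A ⊗ₖ (φ * B) + F.A ⊗ₖ (B * φ) = 0 := by
        rw [← Matrix.kronecker_add, S.φB, Matrix.kronecker_zero]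
      calc _ = ((F.A * F.G) ⊗ₖ (φ * A) + (F.G * F.A) ⊗ₖ (φ * A)) +
          (F.A ⊗ₖ (φ * B) + F.A ⊗ₖ (B * φ)) := by abel
        _ = _ := by rw [h1, h2, add_zero]
    · rw [newφ_succ, mul_add, add_mul, kk, kk, kk, kk, mul_one, one_mul]
      have h1 : (F.φ j * F.G) ⊗ₖ (A * A) + (F.G * F.φ j) ⊗ₖ (A * A) = 0 := by
        rw [← Matrix.add_kronecker, F.φG, Matrix.zero_kronecker]
      have h2 : F.φ j ⊗ₖ (A * B) + F.φ j ⊗ₖ (B * A) = 0 := by
        rw [← Matrix.kronecker_add, S.AB, Matrix.kronecker_zero]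
      calc _ = ((F.φ j * F.G) ⊗ₖ (A * A) + (F.G * F.φ j) ⊗ₖ (A * A)) +
          (F.φ j ⊗ₖ (A * B) + F.φ j ⊗ₖ (B * A)) := by abel
        _ = _ := by rw [h1, h2, add_zero]
  φA := by
    intro j
    refine Fin.cases ?_ (fun j => ?_) j
    · rw [newφ_zero, kk, kk, ← Matrix.kronecker_add, S.φC, Matrix.kronecker_zero]
    · rw [newφ_succ, kk, kk, S.AC, ← Matrix.add_kronecker, F.φA, Matrix.zero_kronecker]
  GA := by
    rw [mul_add, add_mul, kk, kk, kk, kk, mul_one, one_mul, S.AC]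
    have h1 : (F.G * F.A) ⊗ₖ (C * A) + (F.A * F.G) ⊗ₖ (C * A) = 0 := by
      rw [← Matrix.add_kronecker, F.GA, Matrix.zero_kronecker]
    have h2 : F.A ⊗ₖ (B * C) + F.A ⊗ₖ (C * B) = 0 := by
      rw [← Matrix.kronecker_add, S.BC, Matrix.kronecker_zero]
    calc _ = ((F.G * F.A) ⊗ₖ (C * A) + (F.A * F.G) ⊗ₖ (C * A)) +
        (F.A ⊗ₖ (B * C) + F.A ⊗ₖ (C * B)) := by abel
      _ = _ := by rw [h1, h2, add_zero]

theorem CAR (h : S_SEED) : S_CAR := by
  obtain ⟨φ, A, B, C, S⟩ := h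
  intro K
  induction K with
  | zero => exact ⟨Fin 1, inferInstance, inferInstance, ⟨carZero⟩, by simp⟩
  | succ K ih =>
    obtain ⟨ι, i1, i2, ⟨F⟩, hc⟩ := ih
    exact ⟨ι × Fin 8, inferInstance, inferInstance, ⟨carStep F S⟩, by
      rw [Fintype.card_prod, hc, Fintype.card_fin, pow_succ]⟩

end Pool.Agent.H22.U
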