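import Pool.Agent.H26.U.Stmts

/-!
# Project U: module SEED

Four `8 × 8` matrices with entries `0` or powers of `ζ = e^{iπ/4}`; the identities are checked in
`ℤ[ζ] ≃ ℤ⁴` by kernel computation.
-/

namespace Pool.Agent.H22.U

open Pool.Agent.H26.U Matrix

/-- `a + b ζ + c ζ² + d ζ³` -/
abbrev Z8 := ℤ × ℤ × ℤ × ℤ

/-- multiplication in `ℤ[ζ]`, `ζ⁴ = -1` -/
def mulZ (p q : Z8) : Z8 :=
  (p.1 * q.1 - p.2.1 * q.2.2.2 - p.2.2.1 * q.2.2.1 - p.2.2.2 * q.2.1,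
   p.1 * q.2.1 + p.2.1 * q.1 - p.2.2.1 * q.2.2.2 - p.2.2.2 * q.2.2.1,
   p.1 * q.2.2.1 + p.2.1 * q.2.1 + p.2.2.1 * q.1 - p.2.2.2 * q.2.2.2,
   p.1 * q.2.2.2 + p.2.1 * q.2.2.1 + p.2.2.1 * q.2.1 + p.2.2.2 * q.1)

/-- conjugation in `ℤ[ζ]` -/
def conZ (p : Z8) : Z8 := (p.1, -p.2.2.2, -p.2.2.1, -p.2.1)

/-- `ζ = e^{iπ/4}` -/
noncomputable def zeta8 : ℂ := Complex.exp (Real.pi / 4 * Complex.I)

theorem zeta8_pow : zeta8 ^ 4 = -1 := by
  rw [zeta8, ← Complex.exp_nat_mul]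
  rw [show ((4 : ℕ) : ℂ) * (Real.pi / 4 * Complex.I) = Real.pi * Complex.I by push_cast; ring]
  exact Complex.exp_pi_mul_I

theorem zeta8_norm : ‖zeta8‖ = 1 := by
  rw [zeta8, show ((Real.pi : ℂ) / 4 * Complex.I) = ((Real.pi / 4 : ℝ) : ℂ) * Complex.I by
    push_cast; ring]
  exact Complex.norm_exp_ofReal_mul_I _

theorem star_zeta8 : star zeta8 = -zeta8 ^ 3 := by
  have h1 : star zeta8 * zeta8 = 1 := by
    have := Complex.conj_mul' zeta8
    rw [zeta8_norm] at this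
    simpa using this
  have h2 : (-zeta8 ^ 3) * zeta8 = 1 := by
    have := zeta8_pow
    linear_combination -this
  have h3 : zeta8 ≠ 0 := by
    intro h
    rw [h] at h2
    simp at h2
  exact mul_right_cancel₀ h3 (h1.trans h2.symm)

/-- evaluation -/
noncomputable def ev (p : Z8) : ℂ :=
  p.1 + p.2.1 * zeta8 + p.2.2.1 * zeta8 ^ 2 + p.2.2.2 * zeta8 ^ 3

theorem ev_add (p q : Z8) : ev (p + q) = ev p + ev q := by
  simp only [ev, Prod.fst_add, Prod.snd_add, Int.cast_add]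
  ring

theorem ev_mul (p q : Z8) : ev (mulZ p q) = ev p * ev q := by
  simp only [ev, mulZ]
  push_cast
  have h := zeta8_pow
  linear_combination (-(p.2.1 : ℂ) * q.2.2.2 - (p.2.2.1 : ℂ) * q.2.2.1 - (p.2.2.2 : ℂ) * q.2.1
    - (p.2.2.1 : ℂ) * q.2.2.2 * zeta8 - (p.2.2.2 : ℂ) * q.2.2.1 * zeta8
    - (p.2.2.2 : ℂ) * q.2.2.2 * zeta8 ^ 2) * h

theorem ev_con (p : Z8) : ev (conZ p) = star (ev p) := by
  have h := zeta8_pow
  simp only [ev, conZ, star_add, star_mul', star_pow, star_zeta8]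
  have hs : ∀ z : ℤ, star (z : ℂ) = (z : ℂ) := fun z => by simp
  simp only [hs]
  push_cast
  linear_combination ((p.2.2.1 : ℂ) * (-zeta8 ^ 2) - (p.2.2.2 : ℂ) * (-zeta8 ^ 5 + zeta8)) * h

/-- monomials -/
def mon : ℕ → Z8
  | 0 => (1, 0, 0, 0)
  | 1 => (0, 1, 0, 0)
  | 2 => (0, 0, 1, 0)
  | 3 => (0, 0, 0, 1)
  | 4 => (-1, 0, 0, 0)
  | 5 => (0, -1, 0, 0)
  | 6 => (0, 0, -1, 0)
  | 7 => (0, 0, 0, -1)
  | _ => (0, 0, 0, 0)

theorem ev_mon_norm (k : ℕ) (hk : k < 8) : ‖ev (mon k)‖ = 1 := by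
  have h := zeta8_norm
  interval_cases k <;> simp [mon, ev, h]

/-- table of exponents -/
def tab (T : List ℕ) (a b : Fin 8) : Z8 := mon (T.getD (8 * a.val + b.val) 8)

def tph : List ℕ := [0,2,2,4,6,4,0,6,4,2,2,0,6,0,4,6,0,6,2,0,6,0,0,2,4,6,2,4,6,4,4,2,0,6,2,0,6,0,0,2,0,2,6,0,2,0,0,6,4,6,6,0,2,0,4,2,4,2,2,0,6,0,4,6]
def tA : List ℕ := [0,0,0,0,0,0,0,0,0,4,0,0,4,4,4,0,0,0,0,4,4,0,4,4,0,0,4,4,4,4,0,0,0,4,4,4,0,0,4,0,0,4,0,4,0,4,0,4,0,4,4,0,4,0,0,4,0,0,4,0,0,4,4,4]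
def tB : List ℕ := [8,3,1,2,3,4,0,1,5,8,0,5,2,3,3,4,7,0,8,3,0,5,1,6,6,3,5,8,7,4,4,1,5,6,0,1,8,7,3,0,4,5,3,4,1,8,6,7,0,5,7,4,5,2,8,7,7,4,2,7,0,1,1,8]
def tC : List ℕ := [0,4,4,0,4,0,0,4,4,4,0,4,4,0,0,0,4,0,0,0,4,4,0,4,0,4,0,4,0,4,0,4,4,4,4,0,0,4,0,0,0,0,4,4,4,4,0,0,0,0,0,0,0,0,0,0,4,0,4,4,0,0,0,4]

/-- product of tables -/
def mmul (M N : Fin 8 → Fin 8 → Z8) (a b : Fin 8) : Z8 :=
  mulZ (M a 0) (N 0 b) + mulZ (M a 1) (N 1 b) + mulZ (M a 2) (N 2 b) + mulZ (M a 3) (N 3 b) +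
  mulZ (M a 4) (N 4 b) + mulZ (M a 5) (N 5 b) + mulZ (M a 6) (N 6 b) + mulZ (M a 7) (N 7 b)

/-- conjugate transpose of a table -/
def mcon (M : Fin 8 → Fin 8 → Z8) (a b : Fin 8) : Z8 := conZ (M b a)

/-- the complex matrix of a table -/
noncomputable def toM (M : Fin 8 → Fin 8 → Z8) : Matrix (Fin 8) (Fin 8) ℂ :=
  Matrix.of fun a b => ev (M a b)

theorem toM_mul (M N : Fin 8 → Fin 8 → Z8) : toM M * toM N = toM (mmul M N) := by
  ext a b
  simp only [toM, Matrix.mul_apply, Matrix.of_apply, mmul, ev_add, ev_mul, Fin.sum_univ_eight]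

theorem toM_con (M : Fin 8 → Fin 8 → Z8) : (toM M)ᴴ = toM (mcon M) := by
  ext a b
  simp only [toM, Matrix.conjTranspose_apply, Matrix.of_apply, mcon, ev_con]

theorem toM_add (M N : Fin 8 → Fin 8 → Z8) : toM M + toM N = toM (fun a b => M a b + N a b) := by
  ext a b
  simp only [toM, Matrix.add_apply, Matrix.of_apply, ev_add]

theorem toM_congr {M N : Fin 8 → Fin 8 → Z8} (h : ∀ a b, M a b = N a b) : toM M = toM N := by
  ext a b
  simp only [toM, Matrix.of_apply, h]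

/-- scalar table -/
def sca (n : ℤ) (a b : Fin 8) : Z8 := if a = b then (n, 0, 0, 0) else (0, 0, 0, 0)

theorem toM_sca (n : ℤ) : toM (sca n) = (n : ℂ) • (1 : Matrix (Fin 8) (Fin 8) ℂ) := by
  ext a b
  simp only [toM, Matrix.of_apply, sca, Matrix.smul_apply, Matrix.one_apply]
  split_ifs <;> simp [ev]

theorem toM_sca0 : toM (sca 0) = 0 := by
  rw [toM_sca]; simp

theorem norm_tab (T : List ℕ) (hT : ∀ a b : Fin 8, T.getD (8 * a.val + b.val) 8 < 8) (a b : Fin 8) :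
    ‖toM (tab T) a b‖ = 1 := by
  simp only [toM, Matrix.of_apply, tab]
  exact ev_mon_norm _ (hT a b)

theorem SEED : S_SEED := by
  refine ⟨toM (tab tph), toM (tab tA), toM (tab tB), toM (tab tC), ?_⟩
  refine
    { φ_norm := norm_tab _ (by decide +kernel)
      A_norm := norm_tab _ (by decide +kernel)
      C_norm := norm_tab _ (by decide +kernel)
      B_diag := ?_
      B_norm := ?_
      A_herm := ?_
      B_herm := ?_
      C_herm := ?_
      AA := ?_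
      BB := ?_
      CC := ?_
      φφ := ?_
      φφH := ?_
      Aφ := ?_
      AC := ?_
      AB := ?_
      φB := ?_
      φC := ?_
      BC := ?_ }
  · intro a
    have h : ∀ a : Fin 8, tab tB a a = (0, 0, 0, 0) := by decide +kernel
    simp only [toM, Matrix.of_apply, h, ev]
    simp
  · intro a b hab
    have h : ∀ a b : Fin 8, a ≠ b → tB.getD (8 * a.val + b.val) 8 < 8 := by decide +kernel
    simp only [toM, Matrix.of_apply, tab]
    exact ev_mon_norm _ (h a b hab)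
  · rw [toM_con]; exact toM_congr (by decide +kernel)
  · rw [toM_con]; exact toM_congr (by decide +kernel)
  · rw [toM_con]; exact toM_congr (by decide +kernel)
  · rw [toM_mul, toM_congr (N := sca 8) (by decide +kernel), toM_sca]; norm_num
  · rw [toM_mul, toM_congr (N := sca 7) (by decide +kernel), toM_sca]; norm_num
  · rw [toM_mul, toM_congr (N := sca 8) (by decide +kernel), toM_sca]; norm_num
  · rw [toM_mul, toM_congr (N := sca 0) (by decide +kernel), toM_sca0]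
  · rw [toM_con, toM_mul, toM_mul, toM_add, toM_congr (N := sca 16) (by decide +kernel), toM_sca]
    norm_num
  · rw [toM_mul, toM_mul]; exact toM_congr (by decide +kernel)
  · rw [toM_mul, toM_mul]; exact toM_congr (by decide +kernel)
  · rw [toM_mul, toM_mul, toM_add, toM_congr (N := sca 0) (by decide +kernel), toM_sca0]
  · rw [toM_mul, toM_mul, toM_add, toM_congr (N := sca 0) (by decide +kernel), toM_sca0]
  · rw [toM_mul, toM_mul, toM_add, toM_congr (N := sca 0) (by decide +kernel), toM_sca0]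
  · rw [toM_mul, toM_mul, toM_add, toM_congr (N := sca 0) (by decide +kernel), toM_sca0]

end Pool.Agent.H22.U
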