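import Pool.Agent.H26.U.Stmts

/-!
# Project U: module SEQ

`H = ZMod (2 τ) × ZMod n`, one mode for each pair of opposite cosets of `{0} × ZMod n`.
-/

namespace Pool.Agent.H22.U

open Pool.Agent.H26.U Matrix Pool.Agent.H54.Etf

/-- the coset of the mode `j` -/
def cs (s : ℕ) : Fin (s + 2) → ℕ := Fin.cases 0 (Fin.cases (s + 1) (fun j => j.val + 1))

theorem cs_zero (s : ℕ) : cs s 0 = 0 := rfl

theorem cs_one (s : ℕ) : cs s (Fin.succ 0) = s + 1 := rfl

theorem cs_succ (s : ℕ) (j : Fin s) : cs s j.succ.succ = j.val + 1 := rfl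

theorem cs_le (s : ℕ) (i : Fin (s + 2)) : cs s i ≤ s + 1 := by
  refine Fin.cases ?_ (fun i => ?_) i
  · rw [cs_zero]; omega
  · refine Fin.cases ?_ (fun i => ?_) i
    · rw [cs_one]
    · rw [cs_succ]; have := i.isLt; omega

theorem cs_inj (s : ℕ) (i j : Fin (s + 2)) (h : cs s i = cs s j) : i = j := by
  revert h
  refine Fin.cases ?_ (fun i => ?_) i <;> refine Fin.cases ?_ (fun j => ?_) j
  · intro _; rfl
  · refine Fin.cases ?_ (fun j => ?_) j
    · rw [cs_zero, cs_one]; intro h; omega
    · rw [cs_zero, cs_succ]; intro h; omega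
  · refine Fin.cases ?_ (fun i => ?_) i
    · rw [cs_zero, cs_one]; intro h; omega
    · rw [cs_zero, cs_succ]; intro h; omega
  · refine Fin.cases ?_ (fun i => ?_) i <;> refine Fin.cases ?_ (fun j => ?_) j
    · intro _; rfl
    · rw [cs_one, cs_succ]; intro h; have := j.isLt; omega
    · rw [cs_one, cs_succ]; intro h; have := i.isLt; omega
    · rw [cs_succ, cs_succ]
      intro h
      have : i = j := Fin.ext (by omega)
      rw [this]

theorem cs_surj (s m : ℕ) (hm : m ≤ s + 1) : ∃ j, cs s j = m := by
  rcases Nat.eq_zero_or_pos m with h0 | h0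
  · exact ⟨0, by rw [cs_zero, h0]⟩
  · rcases Nat.lt_or_ge m (s + 1) with h1 | h1
    · exact ⟨(Fin.succ (Fin.succ ⟨m - 1, by omega⟩)), by rw [cs_succ]; simp only []; omega⟩
    · exact ⟨Fin.succ 0, by rw [cs_one]; omega⟩

/-- the coset in `ZMod (2 τ)` -/
def kc (s : ℕ) (j : Fin (s + 2)) : ZMod (2 * (s + 1)) := (cs s j : ℕ)

theorem kc_inj (s : ℕ) (i j : Fin (s + 2)) (h : kc s i = kc s j) : i = j := by
  apply cs_inj
  rw [kc, kc, ZMod.natCast_eq_natCast_iff, Nat.ModEq,
    Nat.mod_eq_of_lt (by have := cs_le s i; omega),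
    Nat.mod_eq_of_lt (by have := cs_le s j; omega)] at h
  exact h

theorem kc_neg (s : ℕ) (i j : Fin (s + 2)) (h : kc s i = -kc s j) :
    i = j ∧ (cs s i = 0 ∨ cs s i = s + 1) := by
  have h1 : ((cs s i + cs s j : ℕ) : ZMod (2 * (s + 1))) = 0 := by
    push_cast
    rw [← kc, ← kc, h, neg_add_cancel]
  rw [ZMod.natCast_eq_zero_iff] at h1
  have hi := cs_le s i
  have hj := cs_le s j
  rcases Nat.eq_zero_or_pos (cs s i + cs s j) with h0 | h0
  · exact ⟨cs_inj _ _ _ (by omega), Or.inl (by omega)⟩
  · have := Nat.le_of_dvd h0 h1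
    exact ⟨cs_inj _ _ _ (by omega), Or.inr (by omega)⟩

theorem kc_surj (s : ℕ) (d : ZMod (2 * (s + 1))) : ∃ j, d = kc s j ∨ -d = kc s j := by
  rcases Nat.lt_or_ge d.val (s + 2) with h | h
  · obtain ⟨j, hj⟩ := cs_surj s d.val (by omega)
    exact ⟨j, Or.inl (by rw [kc, hj, ZMod.natCast_zmod_val])⟩
  · have hlt := ZMod.val_lt d
    obtain ⟨j, hj⟩ := cs_surj s (2 * (s + 1) - d.val) (by omega)
    refine ⟨j, Or.inr ?_⟩
    rw [kc, hj, Nat.cast_sub hlt.le, ZMod.natCast_self, ZMod.natCast_zmod_val, zero_sub]

/-- the modes as functions on `ZMod n` -/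
def gm {n : ℕ} (s : ℕ) (U R : ZMod n → ℂ) (v : Fin s → ZMod n → ℂ) :
    Fin (s + 2) → ZMod n → ℂ := Fin.cases U (Fin.cases R v)

/-- the modes as functions on `H` -/
def fm {n : ℕ} (s : ℕ) (U R : ZMod n → ℂ) (v : Fin s → ZMod n → ℂ) (j : Fin (s + 2))
    (h : ZMod (2 * (s + 1)) × ZMod n) : ℂ := if h.1 = kc s j then gm s U R v j h.2 else 0

theorem acf_fm {n : ℕ} [NeZero n] (s : ℕ) (U R : ZMod n → ℂ) (v : Fin s → ZMod n → ℂ)
    (j : Fin (s + 2)) (d : ZMod (2 * (s + 1))) (x : ZMod n) :
    acf (fm s U R v j) (d, x) = if d = 0 then acf (gm s U R v j) x else 0 := by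
  rw [acf, Fintype.sum_prod_type]
  by_cases hd : d = 0
  · rw [if_pos hd, hd, acf, Finset.sum_eq_single (kc s j)]
    · refine Finset.sum_congr rfl fun y _ => ?_
      simp [fm]
    · intro e _ he
      refine Finset.sum_eq_zero fun y _ => ?_
      simp [fm, he]
    · intro h
      exact absurd (Finset.mem_univ _) h
  · rw [if_neg hd]
    refine Finset.sum_eq_zero fun e _ => Finset.sum_eq_zero fun y _ => ?_
    by_cases he : e = kc s j
    · have h2 : ¬ (e - d = kc s j) := by
        intro h2
        apply hd
        rw [← he] at h2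
        exact sub_eq_self.mp h2
      simp [fm, h2]
    · simp [fm, he]

theorem SEQ (hC : S_CAR) (hB : S_BLK) : S_SEQ := by
  intro τ n _ hτ hn hn3 U R v hU hR hv hsum
  obtain ⟨s, rfl⟩ : ∃ s, τ = s + 1 := ⟨τ - 1, by omega⟩
  change Fin s → ZMod n → ℂ at v
  obtain ⟨ι, i1, i2, ⟨F⟩, hc⟩ := hC (s + 2)
  have hcard : Fintype.card ι * Fintype.card (ZMod (2 * (s + 1)) × ZMod n) =
      8 ^ (s + 1 + 1) * (2 * (s + 1) * n) := by
    rw [hc, Fintype.card_prod, ZMod.card, ZMod.card]
  rw [← hcard]
  have ht1 : ((s + 1 : ℕ) : ZMod (2 * (s + 1))) ≠ 0 := by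
    intro h
    rw [ZMod.natCast_eq_zero_iff] at h
    have := Nat.le_of_dvd (by omega) h
    omega
  have ht2 : ((s + 1 : ℕ) : ZMod (2 * (s + 1))) + ((s + 1 : ℕ) : ZMod (2 * (s + 1))) = 0 := by
    rw [← Nat.cast_add, ZMod.natCast_eq_zero_iff]
    exact ⟨1, by ring⟩
  have k0 : kc s 0 = 0 := by rw [kc, cs_zero, Nat.cast_zero]
  have k1 : kc s (Fin.succ 0) = ((s + 1 : ℕ) : ZMod (2 * (s + 1))) := by rw [kc, cs_one]
  refine hB (s + 2) ι F (ZMod (2 * (s + 1)) × ZMod n) (((s + 1 : ℕ) : ZMod (2 * (s + 1))), 0)
    (fun h => ht1 (congrArg Prod.fst h)) (Prod.ext ht2 (add_zero _)) (fm s U R v) ?_ ?_ ?_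
  · intro j
    refine Fin.cases ?_ (fun j => ?_) j
    · constructor
      · simp only [fm, Prod.fst_zero, Prod.snd_zero, k0, if_true]
        exact hU.zero
      · simp only [fm, k0]
        rw [if_neg ht1]
    · refine Fin.cases ?_ (fun j => ?_) j
      · constructor
        · simp only [fm, Prod.fst_zero, Prod.snd_zero, k1]
          rw [if_neg (fun h => ht1 h.symm)]
        · simp only [fm, k1, if_true]
          exact hR.zero
      · have e0 : ∀ i, kc s j.succ.succ = kc s i → i = j.succ.succ := fun i h =>
          (kc_inj s _ _ h).symm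
        constructor
        · simp only [fm, Prod.fst_zero, Prod.snd_zero]
          rw [if_neg]
          intro h
          rw [← k0] at h
          have := kc_inj s _ _ h
          exact (Fin.succ_ne_zero _) this.symm
        · simp only [fm]
          rw [if_neg]
          intro h
          rw [← k1] at h
          have := kc_inj s _ _ h
          exact (Fin.succ_ne_zero j) (Fin.succ_injective _ this).symm
  · rintro ⟨d, y⟩ h0 ht
    obtain ⟨j, hj⟩ := kc_surj s d
    refine ⟨j, ?_, ?_⟩
    · revert hj
      refine Fin.cases ?_ (fun j => ?_) j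
      · intro hj
        have hd : d = 0 := by
          rw [k0, neg_eq_zero, or_self] at hj
          exact hj
        have hy : y ≠ 0 := fun h => h0 (Prod.ext hd h)
        simp only [fm, Prod.neg_mk, hd, neg_zero, k0, if_true]
        exact hU.half y hy
      · refine Fin.cases ?_ (fun j => ?_) j
        · intro hj
          have hd : d = ((s + 1 : ℕ) : ZMod (2 * (s + 1))) := by
            rw [k1] at hj
            rcases hj with hj | hj
            · exact hj
            · rw [neg_eq_iff_add_eq_zero] at hj
              rw [← ht2] at hj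
              exact add_right_cancel hj
          have hy : y ≠ 0 := fun h => ht (Prod.ext hd h)
          have hnd : -d = ((s + 1 : ℕ) : ZMod (2 * (s + 1))) := by
            rw [hd, neg_eq_iff_add_eq_zero]
            exact ht2
          have e1 : fm s U R v (Fin.succ 0) (d, y) = R y := by
            simp only [fm]
            rw [k1, if_pos hd]
            rfl
          have e2 : fm s U R v (Fin.succ 0) (-(d, y)) = R (-y) := by
            simp only [fm, Prod.neg_mk]
            rw [k1, if_pos hnd]
            rfl
          rw [e1, e2]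
          exact hR.half y hy
        · intro hj
          rcases hj with hj | hj
          · left
            constructor
            · simp only [fm]
              rw [if_pos hj]
              exact hv j y
            · simp only [fm, Prod.neg_mk]
              rw [if_neg]
              intro h2
              have h3 := kc_neg s j.succ.succ j.succ.succ (by
                have e : -(-d) = -kc s j.succ.succ := congrArg Neg.neg h2
                rw [neg_neg, hj] at e
                exact e)
              rw [cs_succ] at h3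
              have := j.isLt
              omega
          · right
            constructor
            · simp only [fm]
              rw [if_neg]
              intro h2
              have h3 := kc_neg s j.succ.succ j.succ.succ (by
                have e : -(-d) = -kc s j.succ.succ := congrArg Neg.neg hj
                rw [neg_neg, h2] at e
                exact e)
              rw [cs_succ] at h3
              have := j.isLt
              omega
            · simp only [fm, Prod.neg_mk]
              rw [if_pos hj]
              exact hv j (-y)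
    · intro i hij
      simp only [fm, Prod.neg_mk]
      rcases hj with hj | hj
      · rw [if_neg, if_neg]
        · exact ⟨rfl, rfl⟩
        · intro h
          exact hij (kc_neg s i j (by rw [← h, hj])).1
        · intro h
          exact hij (kc_inj s i j (by rw [← h, hj]))
      · rw [if_neg, if_neg]
        · exact ⟨rfl, rfl⟩
        · intro h
          exact hij (kc_inj s i j (by rw [← h, hj]))
        · intro h
          exact hij (kc_neg s i j (by rw [← h, ← hj, neg_neg])).1
  · rintro ⟨d, x⟩ hdx
    simp only [acf_fm]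
    by_cases hd : d = 0
    · have hx : x ≠ 0 := fun h => hdx (Prod.ext hd h)
      simp only [if_pos hd]
      rw [Fin.sum_univ_succ, Fin.sum_univ_succ, ← add_assoc]
      exact hsum x hx
    · simp only [if_neg hd, Finset.sum_const_zero]

end Pool.Agent.H22.U
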